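import Pool.Agent.H59.LIN.Targets

/-! CON: products of functionals on connected blocks. -/

set_option autoImplicit false

open Finset
open Pool.Agent.H59.LIN

namespace Pool.Agent.H20.LIN

section alt

variable {γ M : Type} [AddCommGroup M]

theorem alt_congr {f g : List γ → M} (P : List (Pl γ)) : ∀ x y : List γ,
    (∀ v, f (x ++ v) = g (y ++ v)) → alt f x P = alt g y P := by
  induction P with
  | nil =>
    intro x y h
    have h1 := h []
    rw [List.append_nil, List.append_nil] at h1
    exact h1
  | cons c P ih =>
    intro x y h
    cases c with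
    | si a =>
      exact ih _ _ fun v => by rw [List.append_assoc, List.append_assoc]; exact h _
    | pr a b =>
      change alt f (x ++ [a, b]) P - alt f (x ++ [b, a]) P =
        alt g (y ++ [a, b]) P - alt g (y ++ [b, a]) P
      rw [ih (x ++ [a, b]) (y ++ [a, b]) fun v => by
          rw [List.append_assoc, List.append_assoc]; exact h _,
        ih (x ++ [b, a]) (y ++ [b, a]) fun v => by
          rw [List.append_assoc, List.append_assoc]; exact h _]

theorem alt_append (f : List γ → M) (P Q : List (Pl γ)) : ∀ u : List γ,
    alt f u (P ++ Q) = alt (fun v => alt f v Q) u P := by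
  induction P with
  | nil => intro u; rfl
  | cons c P ih =>
    intro u
    cases c with
    | si a => exact ih _
    | pr a b =>
      change alt f (u ++ [a, b]) (P ++ Q) - alt f (u ++ [b, a]) (P ++ Q) = _
      rw [ih, ih]
      rfl

theorem alt_zero (P : List (Pl γ)) : ∀ u : List γ, alt (fun _ => (0 : M)) u P = 0 := by
  induction P with
  | nil => intro u; rfl
  | cons c P ih =>
    intro u
    cases c with
    | si a => exact ih _
    | pr a b =>
      change alt (fun _ => (0 : M)) (u ++ [a, b]) P - alt (fun _ => (0 : M)) (u ++ [b, a]) P = 0
      rw [ih, ih, sub_zero]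

theorem alt_sum {ι : Type} (s : Finset ι) (f : ι → List γ → M) (P : List (Pl γ)) :
    ∀ u : List γ, alt (fun v => ∑ i ∈ s, f i v) u P = ∑ i ∈ s, alt (f i) u P := by
  induction P with
  | nil => intro u; rfl
  | cons c P ih =>
    intro u
    cases c with
    | si a => exact ih _
    | pr a b =>
      change alt (fun v => ∑ i ∈ s, f i v) (u ++ [a, b]) P -
        alt (fun v => ∑ i ∈ s, f i v) (u ++ [b, a]) P = _
      rw [ih, ih, ← Finset.sum_sub_distrib]
      rfl

theorem alt_kill {f : List γ → M} {a b : γ} (h : ∀ u v, f (u ++ [a, b] ++ v) = f (u ++ [b, a] ++ v))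
    (P : List (Pl γ)) : Pl.pr a b ∈ P → ∀ u : List γ, alt f u P = 0 := by
  induction P with
  | nil => intro hP; exact absurd hP List.not_mem_nil
  | cons c P ih =>
    intro hP u
    rcases List.mem_cons.1 hP with h1 | h1
    · rw [← h1]
      change alt f (u ++ [a, b]) P - alt f (u ++ [b, a]) P = 0
      rw [sub_eq_zero]
      exact alt_congr P _ _ fun v => h u v
    · cases c with
      | si c => exact ih h1 _
      | pr c c' =>
        change alt f (u ++ [c, c']) P - alt f (u ++ [c', c]) P = 0
        rw [ih h1, ih h1, sub_zero]

end alt

section blocks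

variable {γ : Type} {r : ℕ} (col : γ → Fin r)

/-- one block of the colour `q` -/
theorem alt_block (F : Fin r → List γ → ℚ) (q : Fin r) (P : List (Pl γ)) :
    (∀ a ∈ flt P, col a = q) → ∀ u : List γ,
    alt (fun v => ∏ p, F p (v.filter fun a => col a = p)) u P =
      ∏ p, if p = q then alt (F q) (u.filter fun a => col a = q) P
        else F p (u.filter fun a => col a = p) := by
  induction P with
  | nil =>
    intro _ u
    apply Finset.prod_congr rfl
    intro p _
    split_ifs with h
    · rw [h]; rfl
    · rfl
  | cons c P ih =>
    intro hP u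
    have hP' : ∀ a ∈ flt P, col a = q := by
      intro a ha
      apply hP
      unfold flt at *
      rw [List.flatMap_cons]
      exact List.mem_append_right _ ha
    have hne : ∀ (w : List γ), (∀ a ∈ w, col a = q) → ∀ p, p ≠ q →
        (w.filter fun a => col a = p) = [] := by
      intro w hw p hp
      rw [List.filter_eq_nil_iff]
      intro a ha h
      exact hp ((of_decide_eq_true h).symm.trans (hw a ha))
    have hself : ∀ (w : List γ), (∀ a ∈ w, col a = q) → (w.filter fun a => col a = q) = w := by
      intro w hw
      rw [List.filter_eq_self]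
      intro a ha
      exact decide_eq_true (hw a ha)
    have key : ∀ w : List γ, (∀ a ∈ w, col a = q) →
        alt (fun v => ∏ p, F p (v.filter fun a => col a = p)) (u ++ w) P =
        ∏ p, if p = q then alt (F q) ((u.filter fun a => col a = q) ++ w) P
          else F p (u.filter fun a => col a = p) := by
      intro w hw
      rw [ih hP']
      apply Finset.prod_congr rfl
      intro p _
      split_ifs with h
      · rw [List.filter_append, hself w hw]
      · rw [List.filter_append, hne w hw p h, List.append_nil]
    cases c with
    | si a =>
      have ha : col a = q := by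
        apply hP a
        unfold flt
        rw [List.flatMap_cons]
        exact List.mem_append_left _ (List.mem_singleton.2 rfl)
      exact key [a] (by intro x hx; rw [List.mem_singleton.1 hx]; exact ha)
    | pr a b =>
      have hab : ∀ x ∈ [a, b], col x = q := by
        intro x hx
        apply hP
        unfold flt
        rw [List.flatMap_cons]
        exact List.mem_append_left _ hx
      have hba : ∀ x ∈ [b, a], col x = q := by
        intro x hx
        apply hab
        rcases List.mem_cons.1 hx with h | h
        · rw [h]; exact List.mem_cons_of_mem _ (List.mem_singleton.2 rfl)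
        · rw [List.mem_singleton.1 h]; exact List.mem_cons_self
      change alt _ (u ++ [a, b]) P - alt _ (u ++ [b, a]) P = _
      rw [key _ hab, key _ hba]
      rw [← Finset.mul_prod_erase univ _ (mem_univ q), ← Finset.mul_prod_erase univ _ (mem_univ q),
        ← Finset.mul_prod_erase univ _ (mem_univ q)]
      simp only [if_true]
      have e1 : ∀ X : ℚ, (∏ p ∈ univ.erase q, if p = q then X
          else F p (u.filter fun a => col a = p)) =
          ∏ p ∈ univ.erase q, F p (u.filter fun a => col a = p) := by
        intro X
        apply Finset.prod_congr rfl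
        intro p hp
        rw [if_neg (Finset.ne_of_mem_erase hp)]
      rw [e1, e1, e1, ← sub_mul]
      rfl

/-- several blocks -/
theorem alt_blocks (k : Equiv.Perm (Fin r)) (Bl : Fin r → List (Pl γ))
    (hBl : ∀ i, ∀ a ∈ flt (Bl i), col a = k i) (L : List (Fin r)) : L.Nodup →
    ∀ (F : Fin r → List γ → ℚ) (u : List γ),
    alt (fun v => ∏ p, F p (v.filter fun a => col a = p)) u (L.flatMap Bl) =
      ∏ p, if k.symm p ∈ L then alt (F p) (u.filter fun a => col a = p) (Bl (k.symm p))
        else F p (u.filter fun a => col a = p) := by
  induction L with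
  | nil =>
    intro _ F u
    apply Finset.prod_congr rfl
    intro p _
    rw [if_neg List.not_mem_nil]
  | cons i L ih =>
    intro hnd F u
    rw [List.nodup_cons] at hnd
    rw [List.flatMap_cons, alt_append]
    have h1 : (fun v => alt (fun v => ∏ p, F p (v.filter fun a => col a = p)) v
        (L.flatMap Bl)) = fun v => ∏ p, (fun (p : Fin r) (w : List γ) =>
          if k.symm p ∈ L then alt (F p) w (Bl (k.symm p)) else F p w) p
            (v.filter fun a => col a = p) := by
      funext v
      exact ih hnd.2 F v
    rw [h1]
    refine (alt_block col (fun (p : Fin r) (w : List γ) =>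
      if k.symm p ∈ L then alt (F p) w (Bl (k.symm p)) else F p w) (k i) (Bl i) (hBl i) u).trans ?_
    apply Finset.prod_congr rfl
    intro p _
    by_cases hp : p = k i
    · subst hp
      have h2 : k.symm (k i) = i := k.symm_apply_apply i
      rw [if_pos rfl, h2, if_pos List.mem_cons_self]
      simp only [if_neg hnd.1]
    · rw [if_neg hp]
      have h2 : k.symm p ≠ i := fun h => hp (by rw [← h, k.apply_symm_apply])
      by_cases h3 : k.symm p ∈ L
      · rw [if_pos h3, if_pos (List.mem_cons_of_mem _ h3)]
      · rw [if_neg h3, if_neg]
        intro h4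
        rcases List.mem_cons.1 h4 with h5 | h5
        · exact h2 h5
        · exact h3 h5

end blocks

theorem flt_mem {γ : Type} {P : List (Pl γ)} {a b : γ} (h : Pl.pr a b ∈ P) :
    a ∈ flt P ∧ b ∈ flt P := by
  unfold flt
  constructor
  · exact List.mem_flatMap.2 ⟨_, h, List.mem_cons_self⟩
  · exact List.mem_flatMap.2 ⟨_, h, List.mem_cons_of_mem _ (List.mem_singleton.2 rfl)⟩

theorem pf_CON : T_CON := by
  intro d r r' o Bl G H1 H2 H3 H4
  -- the functional of one colouring
  obtain ⟨f, hf⟩ : ∃ f : (Fin d → Fin r') → List (Fin d × Bool) → ℚ, f = fun κ u =>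
    ∏ p, G p (u.filter fun a => κ a.1 = p) := ⟨_, rfl⟩
  have hprw : prw G = fun u => ∑ κ, f κ u := by
    funext u
    rw [hf]
    rfl
  have hmiss : ∀ (κ : Fin d → Fin r') (p : Fin r'), (∀ c, κ c ≠ p) → f κ = fun _ => 0 := by
    intro κ p hp
    funext u
    rw [hf]
    apply Finset.prod_eq_zero (mem_univ p)
    have h1 : (u.filter fun a => κ a.1 = p) = [] := by
      rw [List.filter_eq_nil_iff]
      intro a _ h
      exact hp _ (of_decide_eq_true h)
    rw [h1, H4]
  -- killed unless constant on the blocks
  have hkill : ∀ κ : Fin d → Fin r', alt (f κ) [] ((List.finRange r).flatMap Bl) ≠ 0 →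
      ∀ c c', o c = o c' → κ c = κ c' := by
    intro κ hκ c c' hcc
    have h1 : ∀ i a b, Pl.pr a b ∈ Bl i → κ a.1 = κ b.1 := by
      intro i a b hab
      by_contra hne
      apply hκ
      refine alt_kill (a := a) (b := b) ?_ _
        (List.mem_flatMap.2 ⟨i, List.mem_finRange i, hab⟩) _
      intro u v
      rw [hf]
      apply Finset.prod_congr rfl
      intro p _
      have h2 : ([a, b].filter fun a => κ a.1 = p) = ([b, a].filter fun a => κ a.1 = p) := by
        by_cases ha : κ a.1 = p
        · have hb : ¬ κ b.1 = p := fun h => hne (ha.trans h.symm)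
          simp [ha, hb]
        · by_cases hb : κ b.1 = p
          · simp [ha, hb]
          · simp [ha, hb]
      rw [List.filter_append, List.filter_append, h2, ← List.filter_append,
        ← List.filter_append]
    obtain ⟨β, hβ⟩ := H2 c
    obtain ⟨β', hβ'⟩ := H2 c'
    rw [← hcc] at hβ'
    have h3 := H3 (o c) (fun x => (κ x : ℕ)) (fun a b hab => by rw [h1 _ a b hab]) _ hβ _ hβ'
    exact Fin.ext h3
  -- the colouring of the blocks
  have hfac : ∀ κ : Fin d → Fin r', (∀ c c', o c = o c' → κ c = κ c') → 0 < r' →
      ∃ k : Fin r → Fin r', ∀ c, κ c = k (o c) := by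
    intro κ hκ hr
    classical
    refine ⟨fun i => if h : ∃ c, o c = i then κ h.choose else ⟨0, hr⟩, ?_⟩
    intro c
    have h : ∃ c', o c' = o c := ⟨c, rfl⟩
    simp only [dif_pos h]
    exact hκ _ _ h.choose_spec.symm
  have hsum : alt (prw G) [] ((List.finRange r).flatMap Bl) =
      ∑ κ, alt (f κ) [] ((List.finRange r).flatMap Bl) := by
    rw [hprw]
    exact alt_sum univ f _ _
  refine ⟨?_, ?_⟩
  · intro hlt
    rw [hsum]
    apply Finset.sum_eq_zero
    intro κ _
    by_contra hκ
    obtain ⟨k, hk⟩ := hfac κ (hkill κ hκ) (by omega)
    have h1 : ¬ Function.Surjective k := by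
      intro h
      have h2 := Fintype.card_le_of_surjective k h
      rw [Fintype.card_fin, Fintype.card_fin] at h2
      omega
    rw [Function.Surjective] at h1
    push Not at h1
    obtain ⟨p, hp⟩ := h1
    apply hκ
    rw [hmiss κ p fun c => by rw [hk]; exact hp _]
    exact alt_zero _ _
  · intro h
    subst h
    rw [hsum]
    simp only [Fin.cast_refl, id_eq]
    by_cases ho : Function.Surjective o
    · -- the permutations
      have hmain : ∀ k : Equiv.Perm (Fin r'), alt (f fun c => k (o c)) []
          ((List.finRange r').flatMap Bl) = ∏ p, alt (G p) [] (Bl (k.symm p)) := by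
        intro k
        rw [hf]
        have h1 := alt_blocks (fun a : Fin d × Bool => k (o a.1)) k Bl
          (fun i a ha => by rw [H1 i a ha]) (List.finRange r') (List.nodup_finRange r') G []
        refine h1.trans ?_
        apply Finset.prod_congr rfl
        intro p _
        rw [if_pos (List.mem_finRange _)]
        rfl
      have h2 : ∑ κ, alt (f κ) [] ((List.finRange r').flatMap Bl) =
          ∑ k : Equiv.Perm (Fin r'), alt (f fun c => k (o c)) []
            ((List.finRange r').flatMap Bl) := by
        symm
        refine Finset.sum_of_injOn (fun k : Equiv.Perm (Fin r') => fun c => k (o c)) ?_ ?_ ?_ ?_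
        · intro k _ k' _ hkk
          ext i
          obtain ⟨c, rfl⟩ := ho i
          exact congrArg Fin.val (congrFun hkk c)
        · intro k _
          exact mem_coe.2 (mem_univ _)
        · intro κ _ hκ
          by_contra hne
          apply hκ
          have hc := hkill κ hne
          rcases Nat.eq_zero_or_pos r' with h0 | h0
          · subst h0
            refine ⟨1, mem_coe.2 (mem_univ _), ?_⟩
            funext c
            exact (o c).elim0
          obtain ⟨k, hk⟩ := hfac κ hc h0
          have hks : Function.Surjective k := by
            by_contra hns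
            rw [Function.Surjective] at hns
            push Not at hns
            obtain ⟨p, hp⟩ := hns
            apply hne
            rw [hmiss κ p fun c => by rw [hk]; exact hp _]
            exact alt_zero _ _
          have hkb : Function.Bijective k := Finite.surjective_iff_bijective.1 hks
          refine ⟨Equiv.ofBijective k hkb, mem_coe.2 (mem_univ _), ?_⟩
          funext c
          exact (hk c).symm
        · intro k _
          rfl
      rw [h2]
      refine Fintype.sum_equiv (Equiv.inv (Equiv.Perm (Fin r'))) _ _ ?_
      intro k
      rw [hmain]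
      rfl
    · rw [Function.Surjective] at ho
      push Not at ho
      obtain ⟨i, hi⟩ := ho
      have hBi : Bl i = [] := by
        by_contra hne
        obtain ⟨c, P, hcP⟩ := List.exists_cons_of_ne_nil hne
        have h1 : ∃ a, a ∈ flt (Bl i) := by
          rw [hcP]
          unfold flt
          rw [List.flatMap_cons]
          cases c with
          | si a => exact ⟨a, List.mem_append_left _ (List.mem_singleton.2 rfl)⟩
          | pr a b => exact ⟨a, List.mem_append_left _ List.mem_cons_self⟩
        obtain ⟨a, ha⟩ := h1
        exact hi a.1 (H1 i a ha)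
      have hR : ∑ σ : Equiv.Perm (Fin r'), ∏ p : Fin r', alt (G p) [] (Bl (σ p)) = 0 := by
        apply Finset.sum_eq_zero
        intro σ _
        apply Finset.prod_eq_zero (mem_univ (σ.symm i))
        rw [σ.apply_symm_apply, hBi]
        exact H4 _
      rw [hR]
      apply Finset.sum_eq_zero
      intro κ _
      by_contra hκ
      have hr : 0 < r' := by
        rcases Nat.eq_zero_or_pos r' with h0 | h0
        · subst h0
          exact i.elim0
        · exact h0
      obtain ⟨k, hk⟩ := hfac κ (hkill κ hκ) hr
      -- `κ` takes fewer than `r'` values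
      have h1 : ¬ Function.Surjective κ := by
        intro hs
        have hr2 : Function.Surjective (fun j : {j : Fin r' // j ≠ i} => k j) := by
          intro p
          obtain ⟨c, hc⟩ := hs p
          exact ⟨⟨o c, hi c⟩, by rw [← hc, hk]⟩
        have h2 := Fintype.card_le_of_surjective _ hr2
        rw [Fintype.card_subtype_compl, Fintype.card_fin, Fintype.card_subtype_eq] at h2
        omega
      rw [Function.Surjective] at h1
      push Not at h1
      obtain ⟨p, hp⟩ := h1
      apply hκ
      rw [hmiss κ p hp]
      exact alt_zero _ _

end Pool.Agent.H20.LIN
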