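import Pool.Agent.H59.LIN.Targets

/-! FTS: the leading coefficients of the alternating sums of the HOMFLYPT polynomial. -/

set_option autoImplicit false

open Finset
open Pool.Agent.H59.LIN

namespace Pool.Agent.H20.LIN

/-! ### the algebra -/

section cube

variable {α K : Type} [DecidableEq α] [CommRing K]

theorem cube_skein (s δ : K) (F : (α → Option Bool) → K)
    (hF : ∀ (τ : α → Option Bool) (x : α), F (Function.update τ x (some true)) =
      (1 - s * δ) * F (Function.update τ x (some false)) + s * F (Function.update τ x none))
    (A : Finset α) : ∀ τ : α → Option Bool,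
    ∑ S ∈ A.powerset, (-1) ^ S.card * F (fun x => if x ∈ A then some (decide (x ∉ S)) else τ x) =
      s ^ A.card * ∑ B ∈ A.powerset, (-δ) ^ (A.card - B.card) *
        F (fun x => if x ∈ B then none else if x ∈ A then some false else τ x) := by
  induction A using Finset.induction_on with
  | empty =>
    intro τ
    simp
  | insert a A ha ih =>
    intro τ
    -- the left side
    have hL : ∑ S ∈ (insert a A).powerset, (-1) ^ S.card *
        F (fun x => if x ∈ insert a A then some (decide (x ∉ S)) else τ x) =
        ∑ S ∈ A.powerset, (-1) ^ S.card *
          F (fun x => if x ∈ A then some (decide (x ∉ S)) else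
            Function.update τ a (some true) x) -
        ∑ S ∈ A.powerset, (-1) ^ S.card *
          F (fun x => if x ∈ A then some (decide (x ∉ S)) else
            Function.update τ a (some false) x) := by
      rw [Finset.sum_powerset_insert ha, sub_eq_add_neg, ← Finset.sum_neg_distrib]
      congr 1
      · apply Finset.sum_congr rfl
        intro S hS
        have haS : a ∉ S := fun h => ha (Finset.mem_powerset.1 hS h)
        congr 2
        funext x
        by_cases hxa : x = a
        · subst hxa
          rw [if_pos (Finset.mem_insert_self _ _), if_neg ha, Function.update_self]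
          simp [haS]
        · rw [Function.update_of_ne hxa]
          by_cases hxA : x ∈ A
          · rw [if_pos (Finset.mem_insert_of_mem hxA), if_pos hxA]
          · rw [if_neg hxA, if_neg (fun h => (Finset.mem_insert.1 h).elim hxa hxA)]
      · apply Finset.sum_congr rfl
        intro S hS
        have haS : a ∉ S := fun h => ha (Finset.mem_powerset.1 hS h)
        rw [Finset.card_insert_of_notMem haS, pow_succ, mul_neg_one, neg_mul]
        congr 3
        funext x
        by_cases hxa : x = a
        · subst hxa
          rw [if_pos (Finset.mem_insert_self _ _), if_neg ha, Function.update_self]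
          simp
        · rw [Function.update_of_ne hxa]
          have h1 : x ∈ insert a S ↔ x ∈ S := by
            rw [Finset.mem_insert]
            exact ⟨fun h => h.resolve_left hxa, Or.inr⟩
          by_cases hxA : x ∈ A
          · rw [if_pos (Finset.mem_insert_of_mem hxA), if_pos hxA]
            simp only [h1]
          · rw [if_neg hxA, if_neg (fun h => (Finset.mem_insert.1 h).elim hxa hxA)]
    rw [hL, ih, ih, ← mul_sub, ← Finset.sum_sub_distrib]
    rw [Finset.sum_powerset_insert ha, Finset.card_insert_of_notMem ha, pow_succ, mul_assoc,
      ← Finset.sum_add_distrib, Finset.mul_sum _ _ s]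
    congr 1
    apply Finset.sum_congr rfl
    intro B hB
    have haB : a ∉ B := fun h => ha (Finset.mem_powerset.1 hB h)
    have hBc : B.card ≤ A.card := Finset.card_le_card (Finset.mem_powerset.1 hB)
    have e1 : ∀ o : Option Bool, (fun x => if x ∈ B then none else if x ∈ A then some false
        else Function.update τ a o x) = Function.update (fun x => if x ∈ B then none else
          if x ∈ A then some false else τ x) a o := by
      intro o
      funext x
      by_cases hxa : x = a
      · subst hxa
        rw [if_neg haB, if_neg ha, Function.update_self, Function.update_self]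
      · rw [Function.update_of_ne hxa, Function.update_of_ne hxa]
    rw [e1, e1, hF]
    have e2 : (fun x => if x ∈ B then none else if x ∈ insert a A then some false else τ x) =
        Function.update (fun x => if x ∈ B then none else
          if x ∈ A then some false else τ x) a (some false) := by
      funext x
      by_cases hxa : x = a
      · subst hxa
        rw [if_neg haB, if_pos (Finset.mem_insert_self _ _), Function.update_self]
      · rw [Function.update_of_ne hxa]
        have h1 : x ∈ insert a A ↔ x ∈ A := by
          rw [Finset.mem_insert]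
          exact ⟨fun h => h.resolve_left hxa, Or.inr⟩
        simp only [h1]
    have e3 : (fun x => if x ∈ insert a B then none else if x ∈ insert a A then some false
        else τ x) = Function.update (fun x => if x ∈ B then none else
          if x ∈ A then some false else τ x) a none := by
      funext x
      by_cases hxa : x = a
      · subst hxa
        rw [if_pos (Finset.mem_insert_self _ _), Function.update_self]
      · rw [Function.update_of_ne hxa]
        have h1 : x ∈ insert a A ↔ x ∈ A := by
          rw [Finset.mem_insert]
          exact ⟨fun h => h.resolve_left hxa, Or.inr⟩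
        have h2 : x ∈ insert a B ↔ x ∈ B := by
          rw [Finset.mem_insert]
          exact ⟨fun h => h.resolve_left hxa, Or.inr⟩
        simp only [h1, h2]
    rw [e2, e3, Finset.card_insert_of_notMem haB]
    have e4 : A.card + 1 - B.card = (A.card - B.card) + 1 := by omega
    have e5 : A.card + 1 - (B.card + 1) = A.card - B.card := by omega
    rw [e4, e5, pow_succ]
    ring

end cube

/-! ### the words -/

section words

variable {n : ℕ}

/-- the word with the state `σ k` at the double point `k` -/
def rs (σ : ℕ → Option Bool) : ℕ → SWd n → Wd n
  | _, [] => []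
  | k, (i, some b) :: w => (i, b) :: rs σ (k + 1) w
  | k, (i, none) :: w => match σ k with
    | none => rs σ (k + 1) w
    | some b => (i, b) :: rs σ (k + 1) w

theorem rs_append (σ : ℕ → Option Bool) (u v : SWd n) : ∀ k,
    rs σ k (u ++ v) = rs σ k u ++ rs σ (k + u.length) v := by
  induction u with
  | nil => intro k; rfl
  | cons x u ih =>
    intro k
    obtain ⟨i, s⟩ := x
    have hl : k + ((i, s) :: u).length = k + 1 + u.length := by
      rw [List.length_cons]; omega
    rw [hl]
    cases s with
    | some b =>
      change (i, b) :: rs σ (k + 1) (u ++ v) = ((i, b) :: rs σ (k + 1) u) ++ _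
      rw [ih]
      rfl
    | none =>
      cases hσ : σ k with
      | none =>
        simp only [List.cons_append, rs, hσ]
        exact ih _
      | some b =>
        simp only [List.cons_append, rs, hσ]
        rw [ih]

theorem rs_congr {σ σ' : ℕ → Option Bool} (w : SWd n) : ∀ k,
    (∀ l, k ≤ l → l < k + w.length → σ l = σ' l) → rs σ k w = rs σ' k w := by
  induction w with
  | nil => intro k _; rfl
  | cons x w ih =>
    intro k h
    obtain ⟨i, s⟩ := x
    have h1 := ih (k + 1) fun l hl hl2 => h l (by omega) (by rw [List.length_cons]; omega)
    have h2 := h k le_rfl (by rw [List.length_cons]; omega)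
    cases s with
    | some b =>
      change (i, b) :: rs σ (k + 1) w = (i, b) :: rs σ' (k + 1) w
      rw [h1]
    | none =>
      simp only [rs]
      rw [h2, h1]

theorem rs_res (ε : ℕ → Bool) (w : SWd n) : ∀ k, rs (fun l => some (ε l)) k w = res k w ε := by
  induction w with
  | nil => intro k; rfl
  | cons x w ih =>
    intro k
    obtain ⟨i, s⟩ := x
    cases s with
    | some b =>
      change (i, b) :: rs _ (k + 1) w = (i, b) :: res (k + 1) w ε
      rw [ih]
    | none =>
      change (i, ε k) :: rs _ (k + 1) w = (i, ε k) :: res (k + 1) w ε
      rw [ih]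

theorem run_rs (σ : ℕ → Option Bool) (B : Finset ℕ) (w : SWd n) : ∀ k,
    (∀ l i s, w[l]? = some (i, s) → (k + l ∈ B ↔ s = none ∧ σ (k + l) = none)) →
    ∀ p, run (rs σ k w) p = run (rmv B k w) p := by
  induction w with
  | nil => intro k _ p; rfl
  | cons x w ih =>
    intro k h p
    obtain ⟨i, s⟩ := x
    have h0 := h 0 i s rfl
    rw [add_zero] at h0
    have h1 := ih (k + 1) fun l i s hl => by
      have h2 := h (l + 1) i s (by rw [List.getElem?_cons_succ]; exact hl)
      have h3 : k + (l + 1) = k + 1 + l := by omega
      rw [h3] at h2
      exact h2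
    cases s with
    | some b =>
      have hk : k ∉ B := fun h2 => Option.some_ne_none _ (h0.1 h2).1
      change run (rs σ (k + 1) w) (tr i p) = _
      simp only [rmv, if_neg hk]
      exact h1 _
    | none =>
      cases hσ : σ k with
      | none =>
        have hk : k ∈ B := h0.2 ⟨rfl, hσ⟩
        simp only [rs, hσ, rmv, if_pos hk]
        exact h1 _
      | some b =>
        have hk : k ∉ B := by
          intro h2
          have h3 := (h0.1 h2).2
          rw [hσ] at h3
          exact Option.some_ne_none _ h3
        simp only [rs, hσ, rmv, if_neg hk]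
        exact h1 _

/-- the skein relation for the states -/
theorem skein_rs {K : Type} [CommRing K] {s δ : K} {T : (n : ℕ) → Wd n → K} (hT : Skn s δ T)
    (w : SWd n) (σ : ℕ → Option Bool) (x : ℕ) (i : Fin n) (hx : w[x]? = some (i, none)) :
    T n (rs (Function.update σ x (some true)) 0 w) =
      (1 - s * δ) * T n (rs (Function.update σ x (some false)) 0 w) +
        s * T n (rs (Function.update σ x none) 0 w) := by
  have hxl : x < w.length := by
    by_contra h
    rw [List.getElem?_eq_none (by omega)] at hx
    exact Option.some_ne_none _ hx.symm
  have hw : w = w.take x ++ (i, none) :: w.drop (x + 1) := by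
    have h1 : w.drop x = (i, none) :: w.drop (x + 1) := by
      rw [List.drop_eq_getElem_cons hxl]
      congr 1
      rw [List.getElem?_eq_getElem hxl] at hx
      exact Option.some_injective _ hx
    conv_lhs => rw [← List.take_append_drop x w, h1]
  obtain ⟨w1, hw1⟩ : ∃ w1, w1 = w.take x := ⟨_, rfl⟩
  obtain ⟨w2, hw2⟩ : ∃ w2, w2 = w.drop (x + 1) := ⟨_, rfl⟩
  have hl1 : w1.length = x := by
    rw [hw1, List.length_take]
    omega
  rw [← hw1, ← hw2] at hw
  have key : ∀ o : Option Bool, rs (Function.update σ x o) 0 w =
      rs σ 0 w1 ++ ((match o with | none => [] | some b => [(i, b)]) ++ rs σ (x + 1) w2) := by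
    intro o
    rw [hw, rs_append, zero_add, hl1]
    congr 1
    · apply rs_congr
      intro l _ hl
      rw [Function.update_of_ne (by omega)]
    · have h1 : rs (Function.update σ x o) (x + 1) w2 = rs σ (x + 1) w2 := by
        apply rs_congr
        intro l hl _
        rw [Function.update_of_ne (by omega)]
      cases o with
      | none =>
        simp only [rs, Function.update_self]
        rw [h1]
        rfl
      | some b =>
        simp only [rs, Function.update_self]
        rw [h1]
        rfl
  rw [key, key, key]
  exact hT.skein n _ _ i

end words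

theorem pus_t {α : Type} [Fintype α] {t : α → ℕ} (ht : Function.Injective t) (a : α)
    (η : α → Bool) : pus t η (t a) = η a := by
  unfold pus
  by_cases h : η a = true
  · rw [h, decide_eq_true_iff]
    exact ⟨a, rfl, h⟩
  · have h2 : η a = false := by
      cases hη : η a
      · rfl
      · exact absurd hη h
    rw [h2, decide_eq_false_iff_not]
    rintro ⟨a', ha', ha2⟩
    rw [ht ha'] at ha2
    exact h ha2

theorem pf_FTS (hS0 : T_S0) : T_FTS := by
  classical
  intro T hT n w d t ht hdb A ε
  -- the state of the letter `k`
  obtain ⟨st, hst, hstn⟩ : ∃ st : (Fin d → Option Bool) → ℕ → Option Bool,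
      (∀ τ a, st τ (t a) = τ a) ∧ ∀ τ k, (¬ ∃ a, t a = k) → st τ k = some false := by
    refine ⟨fun τ k => if h : ∃ a, t a = k then τ h.choose else some false, ?_, ?_⟩
    · intro τ a
      have h : ∃ a', t a' = t a := ⟨a, rfl⟩
      simp only [dif_pos h]
      exact congrArg τ (ht h.choose_spec)
    · intro τ k hk
      simp only [dif_neg hk]
  obtain ⟨F, hF⟩ : ∃ F : (Fin d → Option Bool) → KK, F = fun τ => T n (rs (st τ) 0 w) := ⟨_, rfl⟩
  have hFs : ∀ (τ : Fin d → Option Bool) (x : Fin d), F (Function.update τ x (some true)) =
      (1 - sK * dK) * F (Function.update τ x (some false)) +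
        sK * F (Function.update τ x none) := by
    intro τ x
    obtain ⟨i, hi⟩ := (hdb (t x)).1 ⟨x, rfl⟩
    have h1 : ∀ o, st (Function.update τ x o) = Function.update (st τ) (t x) o := by
      intro o
      funext k
      by_cases hk : ∃ a, t a = k
      · obtain ⟨a, rfl⟩ := hk
        rw [hst]
        by_cases hax : a = x
        · rw [hax, Function.update_self, Function.update_self]
        · rw [Function.update_of_ne hax, Function.update_of_ne (fun h => hax (ht h)), hst]
      · rw [hstn _ _ hk, Function.update_of_ne (fun h => hk ⟨x, h.symm⟩), hstn _ _ hk]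
    rw [hF]
    simp only [h1]
    exact skein_rs hT w (st τ) (t x) i hi
  have hDif : Dif A (cb (T n) w t) ε = sK ^ A.card * ∑ B ∈ A.powerset,
      (-dK) ^ (A.card - B.card) *
        F (fun x => if x ∈ B then none else if x ∈ A then some false else some (ε x)) := by
    rw [← cube_skein sK dK F hFs A fun x => some (ε x)]
    unfold Dif
    apply Finset.sum_congr rfl
    intro S _
    congr 1
    rw [hF]
    unfold cb
    rw [← rs_res]
    congr 1
    apply rs_congr
    intro k _ _
    by_cases hk : ∃ a, t a = k
    · obtain ⟨a, rfl⟩ := hk
      rw [hst]
      have h1 : ∀ η : Fin d → Bool, pus t η (t a) = η a := pus_t ht a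
      rw [h1]
      by_cases ha : a ∈ A
      · rw [if_pos ha, if_pos ha]
      · rw [if_neg ha, if_neg ha]
    · rw [hstn _ _ hk]
      unfold pus
      congr 1
      rw [decide_eq_false_iff_not]
      rintro ⟨a, ha, -⟩
      exact hk ⟨a, ha⟩
  have hsK : (sK : KK) ^ A.card = PowerSeries.X ^ A.card := rfl
  refine ⟨?_, ?_⟩
  · intro m hm
    rw [hDif, hsK, PowerSeries.coeff_X_pow_mul', if_neg (by omega)]
  · rw [hDif, hsK, PowerSeries.coeff_X_pow_mul', if_pos le_rfl, Nat.sub_self,
      PowerSeries.coeff_zero_eq_constantCoeff, map_sum]
    apply Finset.sum_congr rfl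
    intro B hB
    rw [map_mul, map_pow, map_neg]
    have h1 : PowerSeries.constantCoeff dK = (Polynomial.X : Polynomial ℤ) := by
      unfold dK
      exact PowerSeries.constantCoeff_C _
    rw [h1, hF]
    simp only
    rw [hS0 T hT]
    congr 3
    apply congrArg ncl
    funext p
    apply run_rs
    intro l i s hl
    rw [zero_add]
    constructor
    · intro h
      obtain ⟨a, ha, rfl⟩ := Finset.mem_image.1 h
      obtain ⟨i', hi'⟩ := (hdb (t a)).1 ⟨a, rfl⟩
      rw [hl] at hi'
      have h2 := Option.some_injective _ hi'
      refine ⟨(congrArg Prod.snd h2), ?_⟩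
      rw [hst, if_pos ha]
    · rintro ⟨rfl, h⟩
      obtain ⟨a, rfl⟩ := (hdb l).2 ⟨i, hl⟩
      rw [hst] at h
      refine Finset.mem_image.2 ⟨a, ?_, rfl⟩
      by_contra ha
      rw [if_neg ha] at h
      split_ifs at h

end Pool.Agent.H20.LIN
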