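import Pool.Agent.H59.LIN.Targets

/-! REP: every chord diagram is the chord diagram of a singular knot. -/

set_option autoImplicit false

open Finset
open Pool.Agent.H59.LIN

namespace Pool.Agent.H20.LIN

section words

variable {n : ℕ}

theorem run_append {α : Type} (u v : List (Fin n × α)) : ∀ p, run (u ++ v) p = run v (run u p) := by
  induction u with
  | nil => intro p; rfl
  | cons x u ih => intro p; exact ih _

theorem meets_append (u v : SWd n) : ∀ (k : ℕ) (p : Fin (n + 1)),
    meets k (u ++ v) p = meets k u p ++ meets (k + u.length) v (run u p) := by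
  induction u with
  | nil => intro k p; rfl
  | cons x u ih =>
    intro k p
    obtain ⟨i, s⟩ := x
    change (if s = none ∧ (p = i.castSucc ∨ p = i.succ) then [k] else []) ++
      meets (k + 1) (u ++ v) (tr i p) = ((if s = none ∧ (p = i.castSucc ∨ p = i.succ) then [k]
        else []) ++ meets (k + 1) u (tr i p)) ++ meets (k + (u.length + 1)) v (run u (tr i p))
    rw [ih, List.append_assoc]
    congr 3
    omega

/-- words without double points -/
def Ns (w : SWd n) : Prop := ∀ a ∈ w, a.2 ≠ none

theorem meets_ns (w : SWd n) : Ns w → ∀ (k : ℕ) (p : Fin (n + 1)), meets k w p = [] := by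
  induction w with
  | nil => intro _ k p; rfl
  | cons x w ih =>
    intro hw k p
    obtain ⟨i, s⟩ := x
    change (if s = none ∧ (p = i.castSucc ∨ p = i.succ) then [k] else []) ++
      meets (k + 1) w (tr i p) = []
    have h1 : s ≠ none := hw (i, s) List.mem_cons_self
    rw [if_neg (fun h => h1 h.1), ih (fun a ha => hw a (List.mem_cons_of_mem _ ha))]
    rfl

theorem exists_word (π : Equiv.Perm (Fin (n + 1))) : ∃ w : SWd n, Ns w ∧ ∀ p, run w p = π p := by
  have hπ : π ∈ Submonoid.closure (Set.range fun i : Fin n => Equiv.swap i.castSucc i.succ) := by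
    rw [Equiv.Perm.mclosure_swap_castSucc_succ]
    trivial
  induction hπ using Submonoid.closure_induction with
  | mem x hx =>
    obtain ⟨i, rfl⟩ := hx
    refine ⟨[(i, some true)], ?_, fun p => rfl⟩
    intro a ha
    rw [List.mem_singleton.1 ha]
    exact Option.some_ne_none _
  | one => exact ⟨[], fun a ha => absurd ha List.not_mem_nil, fun p => rfl⟩
  | mul x y _ _ hx hy =>
    obtain ⟨u, hu, hu2⟩ := hx
    obtain ⟨v, hv, hv2⟩ := hy
    refine ⟨v ++ u, ?_, ?_⟩
    · intro a ha
      rcases List.mem_append.1 ha with h | h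
      · exact hv a h
      · exact hu a h
    · intro p
      rw [run_append, hv2, hu2]
      rfl

/-- the gadget of one chord -/
theorem gadget (hn : 1 ≤ n) (x y : Fin (n + 1)) (hxy : x ≠ y) : ∃ (w : SWd n) (l : ℕ),
    l < w.length ∧ (∀ p, run w p = p) ∧
    ∀ k p, meets k w p = if p = x ∨ p = y then [k + l] else [] := by
  obtain ⟨i, hi⟩ : ∃ i : Fin n, (i : ℕ) = 0 := ⟨⟨0, hn⟩, rfl⟩
  have hne : i.castSucc ≠ i.succ := by
    intro h
    have := congrArg Fin.val h
    simp at this
  obtain ⟨g, hgx, hgy⟩ : ∃ g : Equiv.Perm (Fin (n + 1)), g x = i.castSucc ∧ g y = i.succ := by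
    refine ⟨Equiv.swap (Equiv.swap x i.castSucc y) i.succ * Equiv.swap x i.castSucc, ?_, ?_⟩
    · rw [Equiv.Perm.mul_apply, Equiv.swap_apply_left]
      apply Equiv.swap_apply_of_ne_of_ne
      · intro h
        have h1 : Equiv.swap x i.castSucc x = Equiv.swap x i.castSucc y := by
          rw [Equiv.swap_apply_left]; exact h
        exact hxy ((Equiv.swap x i.castSucc).injective h1)
      · exact hne
    · rw [Equiv.Perm.mul_apply, Equiv.swap_apply_left]
  obtain ⟨C, hC, hC2⟩ := exists_word g
  obtain ⟨C', hC', hC2'⟩ := exists_word g.symm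
  refine ⟨C ++ ([(i, none), (i, some true)] ++ C'), C.length, ?_, ?_, ?_⟩
  · simp
  · intro p
    rw [run_append, run_append, hC2, hC2']
    change g.symm (tr i (tr i (g p))) = p
    unfold tr
    rw [Equiv.swap_apply_self, g.symm_apply_apply]
  · intro k p
    rw [meets_append, meets_append, meets_ns C hC, meets_ns C' hC', List.append_nil,
      List.nil_append, hC2]
    change (if (none : Option Bool) = none ∧ (g p = i.castSucc ∨ g p = i.succ) then
      [k + C.length] else []) ++ ((if (some true : Option Bool) = none ∧
        (tr i (g p) = i.castSucc ∨ tr i (g p) = i.succ) then [k + C.length + 1] else []) ++ []) = _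
    have e2 : (if (some true : Option Bool) = none ∧
        (tr i (g p) = i.castSucc ∨ tr i (g p) = i.succ) then [k + C.length + 1] else []) = [] :=
      if_neg fun h => Option.some_ne_none _ h.1
    rw [e2, List.append_nil, List.append_nil]
    have h1 : ((none : Option Bool) = none ∧ (g p = i.castSucc ∨ g p = i.succ)) ↔
        (p = x ∨ p = y) := by
      rw [← hgx, ← hgy, g.injective.eq_iff, g.injective.eq_iff]
      exact ⟨fun h => h.2, fun h => ⟨rfl, h⟩⟩
    by_cases h2 : p = x ∨ p = y
    · rw [if_pos h2, if_pos (h1.2 h2)]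
    · rw [if_neg h2, if_neg (fun h => h2 (h1.1 h))]

/-- the gadgets of several chords -/
theorem gadgets (hn : 1 ≤ n) {d : ℕ} (D : Fin (n + 1) ≃ Fin d × Bool) (L : List (Fin d)) :
    L.Nodup → ∃ (w : SWd n) (t : Fin d → ℕ), (∀ c ∈ L, t c < w.length) ∧ (∀ p, run w p = p) ∧
      (∀ c ∈ L, ∀ c' ∈ L, t c = t c' → c = c') ∧
      ∀ k p, meets k w p = if (D p).1 ∈ L then [k + t (D p).1] else [] := by
  induction L with
  | nil =>
    intro _
    exact ⟨[], fun _ => 0, fun c hc => absurd hc List.not_mem_nil, fun p => rfl,
      fun c hc => absurd hc List.not_mem_nil, fun k p => by rw [if_neg List.not_mem_nil]; rfl⟩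
  | cons c L ih =>
    intro hnd
    rw [List.nodup_cons] at hnd
    obtain ⟨w, t, ht1, hw, ht2, hm⟩ := ih hnd.2
    obtain ⟨v, l, hl, hv, hvm⟩ := gadget hn (D.symm (c, false)) (D.symm (c, true)) (by
      intro h
      have := D.symm.injective h
      simp at this)
    refine ⟨v ++ w, fun a => if a = c then l else v.length + t a, ?_, ?_, ?_, ?_⟩
    · intro a ha
      rw [List.length_append]
      by_cases hac : a = c
      · simp only [if_pos hac]
        omega
      · simp only [if_neg hac]
        have := ht1 a ((List.mem_cons.1 ha).resolve_left hac)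
        omega
    · intro p
      rw [run_append, hv, hw]
    · intro a ha b hb hab
      by_cases hac : a = c
      · by_cases hbc : b = c
        · rw [hac, hbc]
        · simp only [if_pos hac, if_neg hbc] at hab
          omega
      · by_cases hbc : b = c
        · simp only [if_neg hac, if_pos hbc] at hab
          omega
        · simp only [if_neg hac, if_neg hbc] at hab
          exact ht2 a ((List.mem_cons.1 ha).resolve_left hac) b
            ((List.mem_cons.1 hb).resolve_left hbc) (by omega)
    · intro k p
      rw [meets_append, hvm, hv, hm]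
      have h1 : (p = D.symm (c, false) ∨ p = D.symm (c, true)) ↔ (D p).1 = c := by
        rw [Equiv.eq_symm_apply, Equiv.eq_symm_apply]
        constructor
        · rintro (h | h) <;> rw [h]
        · intro h
          rcases hb : (D p).2 with _ | _
          · left
            exact Prod.ext h hb
          · right
            exact Prod.ext h hb
      by_cases hc : (D p).1 = c
      · rw [if_pos (h1.2 hc), hc, if_neg hnd.1, if_pos List.mem_cons_self,
          List.append_nil]
        simp only [if_true]
      · rw [if_neg (fun h => hc (h1.1 h)), List.nil_append]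
        by_cases hL : (D p).1 ∈ L
        · rw [if_pos hL, if_pos (List.mem_cons_of_mem _ hL), add_assoc]
          simp only [if_neg hc]
        · rw [if_neg hL, if_neg]
          intro h
          rcases List.mem_cons.1 h with h2 | h2
          · exact hc h2
          · exact hL h2

theorem rot_iter (j : ℕ) (hj : j < n + 1) : (finRotate (n + 1))^[j] 0 = ⟨j, hj⟩ := by
  induction j with
  | zero => rfl
  | succ j ih =>
    rw [Function.iterate_succ_apply', ih (by omega), finRotate_of_lt (by omega)]

theorem rep_aux (hn : 1 ≤ n) {d : ℕ} (D : Fin (n + 1) ≃ Fin d × Bool) : ∃ w : SWd n, Knot w ∧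
    ∃ t : Fin d → ℕ, Function.Injective t ∧
      gauss w = List.ofFn fun x : Fin (n + 1) => t (D x).1 := by
  obtain ⟨w, t, -, hw, ht, hm⟩ := gadgets hn D (List.finRange d) (List.nodup_finRange d)
  obtain ⟨F, hF, hF2⟩ := exists_word (finRotate (n + 1))
  have hrun : run (w ++ F) = finRotate (n + 1) := by
    funext p
    rw [run_append, hw, hF2]
  have hmeets : ∀ p, meets 0 (w ++ F) p = [t (D p).1] := by
    intro p
    rw [meets_append, hm, meets_ns F hF, if_pos (List.mem_finRange _), List.append_nil, zero_add]
  refine ⟨w ++ F, ?_, t, ?_, ?_⟩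
  · intro p
    refine ⟨p, ?_⟩
    rw [hrun]
    exact rot_iter p p.2
  · intro c c' h
    exact ht c (List.mem_finRange c) c' (List.mem_finRange c') h
  · unfold gauss
    rw [hrun, List.ofFn_eq_map]
    have h1 : List.range (n + 1) = (List.finRange (n + 1)).map Fin.val := by
      rw [List.map_coe_finRange_eq_range]
    rw [h1, List.flatMap_map]
    have h2 : ∀ j : Fin (n + 1), meets 0 (w ++ F) ((finRotate (n + 1))^[(j : ℕ)] 0) =
        [t (D j).1] := by
      intro j
      rw [rot_iter j j.2]
      exact hmeets j
    simp only [h2]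
    exact List.flatMap_pure_eq_map _ _

end words

theorem pf_REP : T_REP := by
  intro d D
  cases d with
  | zero =>
    refine ⟨0, [], ?_, fun c => c.elim0, fun c => c.elim0, ?_⟩
    · intro p
      exact ⟨0, Subsingleton.elim (α := Fin 1) _ _⟩
    · rfl
  | succ e =>
    obtain ⟨w, hw, t, ht, hg⟩ := rep_aux (n := 2 * e + 1) (by omega) (d := e + 1) D
    exact ⟨2 * e + 1, w, hw, t, ht, hg⟩

end Pool.Agent.H20.LIN
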